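-- Moved out of Results (limit of four hand-ins); complete and compiled.
import Pool.Agent.T9h85.BR.Core

/-!
# Conditions of Bruck-Ryser type for difference sets with Singer parameters, in all dimensions

Let a symmetric design have the Singer parameters of `(n, m)`. The theorem of Bruck, Ryser and Chowla
says something about `n` only in the cases `n ≡ 2 (mod 4)`, `m` odd, and `n ≡ 1 (mod 4)`,
`m ≡ 3 (mod 4)`: then `n` is a sum of two squares. In all other cases it is void; for even `m` the number
`k - lambda = n ^ (m - 2)` is a square. For difference sets we prove such conditions in further cases,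
for every single `n`, without exceptions:

* Let `n ≡ 1 (mod 4)`, and let `m` be an odd number with a prime factor `p ≡ 3 (mod 4)`. If some finite
  group (not assumed abelian) contains a difference set with the Singer parameters of `(n, m)`, then `n` is a
  sum of two squares. (New for `m ≡ 1 (mod 4)`, for instance `m = 9, 21, 33`. So if `n ≡ 1 (mod 4)` is
  not a sum of two squares, all prime factors of the odd number `m` are congruent to `1` modulo `4`, and
  these `m` have density zero.)

* Let `m ≥ 4` be even and let there be a difference set with the Singer parameters of `(n, m)` which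
  lifts, as the classical Singer difference sets do, to a relative difference set in a finite group with a
  normal Sylow 2-subgroup (for even `n` this is no condition on the group). Let `n - 1 = 2 ^ a w` with
  `w` odd.
  If `a` is even and `w ≡ 1 (mod 4)` (for instance if `n ≡ 2 (mod 4)`), then `n` is a sum of two squares.
  If `a` is odd and `w ≡ 1 (mod 4)` (for instance if `n ≡ 3 (mod 8)`), then all primes which divide `n` to
  an odd power are congruent to `1` or `3` modulo `8`.
  If `a` is odd and `w ≡ 3 (mod 4)` (for instance if `n ≡ 7 (mod 8)`), then all primes which divide `n` to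
  an odd power are congruent to `1` or `7` modulo `8`.

Proof. Let the prime `r` divide `n` to an odd power. If `m` is odd, then no power of `r` is congruent to
`-1` modulo a prime divisor of the order of the group (`Lander.no_difference_set` of the starting library);
if `m` is even and the set is liftable, then this is true for the odd prime divisors of `n - 1`
(`rds_closed` of the starting library). So the Jacobi symbols `(r | w)` are not `-1` for the divisors `w` of
`(n ^ m - 1) / (n - 1)` and for the odd divisors `w` of `n - 1`. We take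
`w = 1 + n + ⋯ + n ^ (p - 1)`, which is congruent to `p ≡ 3` modulo `4` and to `1` modulo `r`, and the
largest odd divisor of `n - 1`, and use the law of quadratic reciprocity.
-/

set_option autoImplicit false

namespace Pool.Agent.Results.MP_79499b_co.BruckRyserConditions

/-- Some finite group `G` (not assumed abelian) of order `(n ^ m - 1) / (n - 1)` contains a
difference set `D` with the Singer parameters:
`k = (n ^ (m - 1) - 1) / (n - 1)`, `lambda = (n ^ (m - 2) - 1) / (n - 1)`. -/
def HasSingerDifferenceSet (n m : ℕ) : Prop :=
  ∃ (G : Type) (_ : Group G) (_ : Fintype G) (_ : DecidableEq G) (D : Finset G),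
    Fintype.card G * (n - 1) = n ^ m - 1 ∧ D.card * (n - 1) = n ^ (m - 1) - 1 ∧
    ∀ g : G, g ≠ 1 →
      ((D ×ˢ D).filter (fun p : G × G => p.1 * p.2⁻¹ = g)).card * (n - 1) = n ^ (m - 2) - 1

/-- `E` is a difference set with the Singer parameters in the finite group `Q` (not assumed
abelian): `v = (n ^ m - 1) / (n - 1)`, `k = (n ^ (m - 1) - 1) / (n - 1)`,
`lambda = (n ^ (m - 2) - 1) / (n - 1)`. -/
def IsSinger {Q : Type} [Group Q] [Fintype Q] [DecidableEq Q] (E : Finset Q) (n m : ℕ) : Prop :=
  Fintype.card Q * (n - 1) = n ^ m - 1 ∧ E.card * (n - 1) = n ^ (m - 1) - 1 ∧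
    ∀ g : Q, g ≠ 1 →
      ((E ×ˢ E).filter (fun p : Q × Q => p.1 * p.2⁻¹ = g)).card * (n - 1) = n ^ (m - 2) - 1

/-- The difference set `E` lifts to the group `G`: there are a surjective homomorphism `π : G → Q`
with a kernel of order `n - 1` and a subset `D` of `G`, mapped by `π` bijectively onto the
complement of `E`, such that each `g ∈ G` outside the kernel has exactly `n ^ (m - 2)`
representations `g = d₁ * d₂⁻¹` with `d₁, d₂ ∈ D` (so `D` is a relative difference set in `G`, with
forbidden subgroup the kernel). -/
def LiftsTo {Q : Type} [Group Q] [Fintype Q] [DecidableEq Q] (E : Finset Q) (n m : ℕ)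
    (G : Type) [Group G] [Fintype G] [DecidableEq G] : Prop :=
  ∃ (π : G →* Q) (D : Finset G), Function.Surjective π ∧ Nat.card π.ker = n - 1 ∧
    D.image π = Eᶜ ∧ Set.InjOn π D ∧
    ∀ g : G, π g ≠ 1 → ((D ×ˢ D).filter (fun p : G × G => p.1 * p.2⁻¹ = g)).card = n ^ (m - 2)

/-- There is a difference set with the Singer parameters of `(n, m)` which lifts to a finite group
`G` with a normal Sylow 2-subgroup, i.e. with a normal subgroup of 2-power order and odd index.
(Every nilpotent group and, if `n` is even, every group `G` of order `n ^ m - 1` has one.) -/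
def Liftable (n m : ℕ) : Prop :=
  ∃ (Q : Type) (_ : Group Q) (_ : Fintype Q) (_ : DecidableEq Q) (E : Finset Q)
    (G : Type) (_ : Group G) (_ : Fintype G) (_ : DecidableEq G),
    (∃ K : Subgroup G, K.Normal ∧ (∃ s, Nat.card K = 2 ^ s) ∧ Odd K.index) ∧
    IsSinger E n m ∧ LiftsTo E n m G

theorem result :
    (∀ n m p : ℕ, 2 ≤ n → n % 4 = 1 → Odd m → p.Prime → p % 4 = 3 → p ∣ m →
      HasSingerDifferenceSet n m → ∃ x y : ℕ, n = x ^ 2 + y ^ 2) ∧
    (∀ n m a w : ℕ, 2 ≤ n → Even m → 4 ≤ m → Liftable n m → n - 1 = 2 ^ a * w →
      (Even a → w % 4 = 1 → ∃ x y : ℕ, n = x ^ 2 + y ^ 2) ∧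
      (Odd a → w % 4 = 1 → ∀ r : ℕ, r.Prime → Odd (n.factorization r) →
        r % 8 = 1 ∨ r % 8 = 3) ∧
      (Odd a → w % 4 = 3 → ∀ r : ℕ, r.Prime → Odd (n.factorization r) →
        r % 8 = 1 ∨ r % 8 = 7)) :=
  ⟨fun _ _ _ hn h4 hm hp hp4 hpm h => Pool.Agent.T9h85.BR.odd_dim hn h4 hm hp hp4 hpm h,
    fun _ _ _ _ hn hm hm4 h hw => Pool.Agent.T9h85.BR.even_dim hn hm hm4 h hw⟩

end Pool.Agent.Results.MP_79499b_co.BruckRyserConditions
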